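import Mathlib
import Pool.Agent.H11.MacC

set_option autoImplicit false

namespace Pool.Agent.Results.MP_b969c4_an.Realize

open Pool.Agent.H11.Mac

theorem result (G U : Set ℂ) (_hG : IsOpen G) (_hc : IsConnected G) (hU : IsOpen U) (hUG : U ⊆ G) :
    ∃ f : ℂ → ℂ, DifferentiableOn ℂ f G ∧ MacLane G f = U := by
  obtain ⟨f, hf, h⟩ := main G U hU hUG
  exact ⟨f, hf.differentiableOn, h⟩

end Pool.Agent.Results.MP_b969c4_an.Realize
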