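import Mathlib
import Pool.Agent.H11.MacC

set_option autoImplicit false

namespace Pool.Agent.Results.MP_b969c4_an.Split

open Pool.Agent.H11.Mac

theorem result : ∃ (G : Set ℂ) (f : ℂ → ℂ), IsOpen G ∧ IsConnected G ∧ IsSimplyConnected G ∧
    DifferentiableOn ℂ f G ∧ (MacLane G f).Nonempty ∧ ¬ IsPreconnected (MacLane G f) ∧
    ¬ IsSimplyConnected (MacLane G f) := by
  obtain ⟨f, hf, h⟩ := main Set.univ {z : ℂ | z.re ≠ 0}
    (isOpen_ne_fun Complex.continuous_re continuous_const) (Set.subset_univ _)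
  have key : ¬ IsPreconnected {z : ℂ | z.re ≠ 0} := by
    intro hp
    have := (hp.image _ Complex.continuous_re.continuousOn).Icc_subset (a := -1) (b := 1)
      ⟨-1, by simp, by simp⟩ ⟨1, by simp, by simp⟩
    obtain ⟨z, hz, h0⟩ := this (show (0 : ℝ) ∈ Set.Icc (-1) 1 by constructor <;> norm_num)
    exact hz h0
  refine ⟨Set.univ, f, isOpen_univ, isConnected_univ, ?_, hf.differentiableOn, ?_, ?_, ?_⟩
  · have := convex_univ (𝕜 := ℝ) (E := ℂ) |>.contractibleSpace Set.univ_nonempty
    exact SimplyConnectedSpace.ofContractible _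
  · rw [h]; exact ⟨1, by simp⟩
  · rw [h]; exact key
  · rw [h]; exact fun hs => key hs.isPathConnected.isConnected.isPreconnected

end Pool.Agent.Results.MP_b969c4_an.Split
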